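import Mathlib
import Pool.Agent.Q64.HC.Count
import Pool.Agent.Q64.HC.NV

/-!
# The noncommutative variational Hodge conjecture for the products of all linear admissible
subcategories with the abelian varieties of almost all CM types of all CM fields

Let `E i` (`i` in a finite set) be CM fields of degree `2 g i`. Nothing is assumed about their
Galois groups. They are pairwise independent: for `i ≠ k` and all complex embeddings `φ` of `E i`
and `ψ` of `E k` some automorphism of `ℂ` is the identity on `φ (E i)` and the complex conjugation
on `ψ (E k)` (this is no condition if there is only one field). There are `2 ^ (∑ i, g i)` families
of CM types `Φ i` of the fields `E i`. A family is exceptional (`exceptionalFamilies`) if the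
following statement is false for it. Let `A` be any product of copies of the abelian varieties of
CM types `(E i, Φ i)`, and let `C` be **any** `S`-linear admissible subcategory of `D_perf (X)`,
for any smooth proper morphism `X → S`, which is unrelated to the fields `E i` (see below). Let
`perf (A) ⊠ C` be the `S`-linear admissible subcategory of `D_perf (A × X)` given by `C`. **Every
flat class of `perf (A) ⊠ C` which is a Hodge class for all `b` is a sum of products `f ⊗ x` of a
combination `f` of products of divisor classes on `A` and a flat class `x` of `C` which is a Hodge
class for all `b`; the noncommutative variational Hodge conjecture for `perf (A) ⊠ C` is equivalent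
to the noncommutative variational Hodge conjecture for `C`; and it then holds for all `S`-linear
admissible subcategories of `perf (A) ⊠ C`** (`NCVariationalForTypes`).

The condition on `C` (`UnrelatedFamily`). Let `w ≠ 0` be a flat vector in `K_0^top (C_b) ⊗ ℂ` or
`K_1^top (C_b) ⊗ ℂ` such that for each automorphism `σ` of `ℂ` the conjugate `σ w` is of pure type
for **all** `b`: a sum of classes of types `(p, q)` with `p - q = d σ`, where `d σ` does not depend
on `b`. The condition is that for all such `w` a function `n` on the complex embeddings of `E i`
with `n (conj φ) = - n φ` which is invariant under all automorphisms `τ` of `ℂ` with
`d (σ τ) = d σ` for all `σ` is zero. The vectors `w` span a constant sub-Hodge structure with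
complex multiplication, and the condition is void for the vectors with `d = 0`. So the condition is
void if the variation of Hodge structure `K^top (C / S)` has no constant sub-Hodge structures with
complex multiplication, other than those with `p = q`; it is true if the compositum of the fields
of multiplication of these is linearly disjoint from the normal closures of the `E i`; and it is
true if one fibre `C_b` is unrelated to the fields `E i`, for instance if the ranks of `K_0^top`
and `K_1^top` are less than `2 * dim S` for all nonzero spaces `S` of functions `n` with
`n (conj φ) = - n φ` that are stable under the automorphisms of `ℂ`.

Nothing is known about the conjecture for `C` in general, and nothing is assumed, also not on the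
base or the monodromy.

The Hodge structures of `K^top (C_b) ⊗ ℚ`, the sum of `K_0^top` (of weight zero) and `K_1^top` (of
weight one), are given by `C b : Coh v`, a rational space (the local system, trivialized over `B`,
the base or a covering of the base) with a basis of homogeneous elements and the Hodge operators
`(C b).z`, which are the multiplication by `p - q`; by the Künneth formula those of
`perf (A_b) ⊠ C_b` are `HAZ W v`, the forms on the homology `W` of `A_b` with values in `ℚ ^ v`.
The spans of the classes of objects are given by `ObjectSystem`; the three properties used are that
the exterior product of a vector bundle on `A_b` and an object of `C_b` is an object of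
`perf (A_b) ⊠ C_b`, that the direct image along `A_b` of the tensor product of an object with a
vector bundle on `A_b` is an object of `C_b` (by the theorem of Riemann and Roch its class is an
integral over `A_b`), and that its objects can be restricted to the point zero of `A_b`. A class
which is algebraic for one `b` is a Hodge class for all `b` (known, see the problem file).

The theorem bounds the number of the exceptional families of CM types: it is at most
`2 ^ (∑ i, g i) * ∑ i, C * (1 + log (2 g i)) ^ 16 * min (N ^ 2 * D ^ (1 / 4) / √g) (√g / p)` with
an absolute constant `C`. Here, for `E = E i` and `g = g i`, `N` is the number of the CM subfields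
of `E` (with `E`), `D = D i ≥ 1` is a bound for the degrees of the CM subfields of `E` that are
normal over `ℚ` with a nonabelian Galois group, and `p = p i` is any prime factor of `g` (or
`p = 1`). So the exceptional types are a proportion `O (g ^ (-1 / 4) * (log g) ^ 16)` of all types
of all CM fields with a bounded number of CM subfields, and `O (g ^ (-1 / 2) * (log g) ^ 16)` if
the normal nonabelian ones have bounded degrees. Some assumption is necessary: almost all types of
a multiquadratic CM field are degenerate. The counting part, and the theorem on the Hodge classes
on `A × Z` for varieties `Z`, are those of `AllCMFieldsTimes` (MP_e12fcd_ag, starting files).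

Relation to other results: `AllCMTypesTimesFamily` (MP_e9c0f3_ag) is the statement for families of
varieties; here the factor is any linear admissible subcategory, and the statement holds for all
linear admissible subcategories of the product. `OneFrobeniusTimesCategory` (this folder, helper70)
needs an element of the Galois group of the generic point whose eigenvalues on `A` are Weil numbers
of given fields with absolutely irreducible odd functions.

The proof. Over the complex numbers a flat class `F` of `perf (A) ⊠ C` is a sum of products of
monomials of eigenforms of the fields `E i` on `A` and flat vectors `w`. If `F` is a Hodge class
for all `b` then all conjugates of `w` are of pure type for all `b`, and the types are determined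
by the monomial and the CM types. If the CM types are not degenerate then the exponents of the
monomial are invariant under the automorphisms which do not change the types of `w`, so that they
are balanced, as `C` is unrelated. So the components of `F` in `K^top (C_b)` are Hodge classes for
all `b`, and those on `A` are balanced, so that they are combinations of products of divisor
classes. To find these components by algebraic operations a perfect pairing is needed: for a
balanced form `f ≠ 0` on `A` there is a balanced form `β` of complementary degree with
`∫ f ∧ β ≠ 0`, since the conjugates of the determinant are multiples of it. Finally, a flat class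
of an admissible subcategory of the product, algebraic for one `b`, is algebraic for all `b` in the
product, and it is its own image under the projection functor.
-/

set_option autoImplicit false

namespace Pool.Agent.Results.MP_298761_ag.AllCMTypesTimesCategory

open NumberField Module Finset Pool.Agent.H204R3.CM Pool.Agent.H977R3.CM Pool.Agent.Y1.KN
  Pool.Agent.Q64.HC

/-- The families of CM types `Φ i` of the fields `E i` for which the statement
`NCVariationalForTypes` is false. -/
def exceptionalFamilies {ι : Type} (E : ι → Type) [∀ i, Field (E i)] [∀ i, NumberField (E i)] :
    Set (∀ i, Set (E i →+* ℂ)) :=
  {Φ | (∀ i, IsCMType (Φ i)) ∧ ¬ NCVariationalForTypes Φ}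

/-- **The noncommutative variational Hodge conjecture for the products of all linear admissible
subcategories with the abelian varieties of almost all CM types of all CM fields.** -/
theorem result :
    ∃ C : ℝ, 0 ≤ C ∧ ∀ (ι : Type) [Fintype ι] (E : ι → Type) [∀ i, Field (E i)]
      [∀ i, NumberField (E i)] [∀ i, IsCMField (E i)] (g p : ι → ℕ) (D : ι → ℝ),
      PairwiseIndep E → (∀ i, finrank ℚ (E i) = 2 * g i) →
      (∀ i, p i ∣ g i ∧ (p i = 1 ∨ (p i).Prime)) → (∀ i, 1 ≤ D i) →
      (∀ (i : ι) (F : IntermediateField ℚ (E i)), IsCMField F → IsGalois ℚ F →
        ¬ IsAbelianGalois ℚ F → (finrank ℚ F : ℝ) ≤ D i) →
      ((exceptionalFamilies E).ncard : ℝ) ≤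
        2 ^ (∑ i, g i) * ∑ i, C * ((1 + Real.log (2 * g i)) ^ 16 *
          min ((numCMSubfields (E i) : ℝ) ^ 2 * D i ^ (1 / 4 : ℝ) / √(g i))
            (√(g i) / p i)) := by
  obtain ⟨C, hC0, hC⟩ := count
  refine ⟨C, hC0, ?_⟩
  intro ι _ E _ _ _ g p D hE hg hp hD hDF
  exact hC ι E g p D hE hg hp hD hDF _ fun Φ hΦ hnd => ncVariationalForTypes hΦ hE hnd

end Pool.Agent.Results.MP_298761_ag.AllCMTypesTimesCategory
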