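import Mathlib
import Pool.Agent.Q64.HC.OneFib

/-!
# The noncommutative variational Hodge conjecture for the products of all linear admissible
subcategories with a constant abelian variety with many periods which are algebraically independent
of the periods of one fibre

Let `C` be **any** `S`-linear admissible subcategory of `D_perf (X)`, for any smooth proper morphism
`X → S`, and let `K` be a subfield of the complex numbers which contains the periods of **one**
fibre `C_b₀`: the entries of the Hodge operator of `K^top (C_b₀) ⊗ ℚ`, the sum of `K_0^top` and
`K_1^top`, for a rational basis. Let `A = ℂ ^ g / (ℤ ^ g + Z ℤ ^ g)` be a principally polarized
abelian variety with period matrix `Z` (every complex abelian variety is isogenous to such an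
abelian variety), and let `D` entries of `Z` be algebraically independent over `K`.

Suppose that `A` is simple and `D > g ^ 2 / 4`, or that `D > g (g - 1) / 2 + 1 / 4`. Then **for all
`n` every flat class of `perf (A ^ n) ⊠ C` which is a Hodge class for all `b` is a sum of products
`f ⊗ x` of a combination `f` of products of divisor classes on `A ^ n` and a flat class `x` of `C`
which is a Hodge class for all `b`; the noncommutative variational Hodge conjecture for
`perf (A ^ n) ⊠ C` is equivalent to the noncommutative variational Hodge conjecture for `C`, and it
then holds for all `S`-linear admissible subcategories of `perf (A ^ n) ⊠ C`**
(`NCVariationalReduces`). Nothing is assumed on the other fibres of `C`, whose periods may well be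
algebraic over the field generated by those of `A`: the abelian variety `A` may for instance be
isogenous to a factor of the Jacobian or of an intermediate Jacobian of some of the fibres `X_b`.
If one fibre `C_b₀` has a Hodge structure with complex multiplication, as for a family with a
CM point, one can take for `K` the field of algebraic numbers. There are only countably many
periods of fibres over algebraic points of families which are defined over the algebraic numbers.
So for almost all abelian varieties `A`, in the sense of measure, the theorem applies to all these
families `C` at once, with `D = g (g + 1) / 2`.

The Hodge structures of `K^top (C_b) ⊗ ℚ` are given by `C b : Coh v`, a rational space (the local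
system, trivialized over `B`, the base or a covering of the base) with a basis of homogeneous
elements and the Hodge operators `(C b).z`, which are the multiplication by `p - q`; by the Künneth
formula those of `perf (A ^ n) ⊠ C_b` are `HAZ W v`, the forms on the homology `W` of `A ^ n` with
values in `ℚ ^ v`. The spans of the classes of objects are given by `ObjectSystem`; the three
properties used are that the exterior product of a vector bundle on `A ^ n` and an object of `C_b`
is an object of `perf (A ^ n) ⊠ C_b`, that the direct image along `A ^ n` of the tensor product of
an object with a vector bundle on `A ^ n` is an object of `C_b` (by the theorem of Riemann and Roch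
its class is an integral over `A ^ n`), and that its objects can be restricted to the point zero of
`A ^ n`. A class which is algebraic for one `b` is a Hodge class for all `b` (known, see the
problem file).

Relation to other results of this team: the theorem on the Hodge classes on one fibre is the one of
`ManyPeriods` (MP_e12fcd_ag, helper63), stated there for a single variety. In
`MovingTimesCategory` (this folder, after the starting files) the abelian varieties move while the
Hodge structure of `C` is constant along leaves; here `A` is constant, and one fibre of `C` is
enough. The abelian varieties of `AllCMTypesTimesCategory` (this folder) have complex
multiplication, hence algebraic periods.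

The proof. Let `F` be a flat class which is a Hodge class for all `b`. At the point `b₀` it is a sum
of products of classes on `A ^ n` and Hodge classes of `C_b₀`, by the theorem of helper63. So all
the values of `F`, as a form on the homology of `A ^ n` with values in `K^top (C_b₀) ⊗ ℚ`, are
killed by the Hodge operator of `C_b₀`, and `F` is killed by the Hodge operator of `A ^ n`. As
`A` is constant, and `F` is killed for all `b` by the sum of the two Hodge operators, the values of
`F` are killed by the Hodge operators of all `C_b`: they are Hodge classes for all `b`. The
components of `F` on `A ^ n` are Hodge classes, hence combinations of products of divisor classes.
The pairing of the Hodge classes of complementary degrees on `A ^ n` is not degenerate, so that `F`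
is a sum of products of divisor classes and of integrals of `F` and products of divisor classes
over `A ^ n`; these integrals are classes of objects for one `b` if `F` is, hence for all `b`.
-/

set_option autoImplicit false

namespace Pool.Agent.Results.MP_298761_ag.ManyPeriodsTimesCategory

open Module Pool.Agent.W437.HC Pool.Agent.W437.HD Pool.Agent.TH504.CB Pool.Agent.TH504.VY
  Pool.Agent.TH131.GHC Pool.Agent.Q64.HC

/-- **The noncommutative variational Hodge conjecture for the products of all linear admissible
subcategories with the powers of a constant abelian variety with many periods which are
algebraically independent of the periods of one fibre.** Let `Z` be the period matrix of the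
principally polarized abelian variety `A` of dimension `g`, let `C b` be the Hodge structures of
`K^top (C_b) ⊗ ℚ`, the one at `b₀` with periods in the field `K`, and let the entries of `Z` with
index in `s` be algebraically independent over `K`. If `A` is simple and the number `D` of elements
of `s` is larger than `g ^ 2 / 4`, or if `D` is larger than `g (g - 1) / 2 + 1 / 4`, then for all
`n` the flat classes which are Hodge classes for all `b` are sums of products, and the
noncommutative variational Hodge conjecture for `perf (A ^ n) ⊠ C` is reduced to `C`. -/
theorem result {g : ℕ} (Z : Matrix (Fin g) (Fin g) ℂ) (hsymm : Z.transpose = Z)
    (hpos : (Z.map Complex.im).PosDef) {B : Type} (b₀ : B) {v : ℕ} (C : B → Coh v)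
    (K : Subfield ℂ) (hK : ∀ a b, (C b₀).z a b ∈ K) (s : Finset (Fin g × Fin g))
    (hs : AlgebraicIndependent K fun a : s => Z a.1.1 a.1.2)
    (hD : IsSimpleAV Z ∧ g ^ 2 < 4 * s.card ∨ 2 * g ^ 2 + 1 < 4 * s.card + 2 * g) (n : ℕ) :
    HodgeClassesAreProducts (fun _ : B => perPow Z n) C ∧
      NCVariationalReduces (fun _ : B => perPow Z n) C :=
  manyPeriodsFamily Z hsymm hpos b₀ C K hK s hs hD n

end Pool.Agent.Results.MP_298761_ag.ManyPeriodsTimesCategory
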