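import Mathlib
import Pool.Agent.Q64.HC.NV
import Pool.Agent.TH504.VY.Main

/-!
# The noncommutative variational Hodge conjecture for the products of moving abelian schemes with
all linear admissible subcategories

Let `B` be the universal covering of the base `S`, `A → B` a fibre product (repetitions allowed) of
families `A i` of principally polarized abelian varieties, and `C` **any** `S`-linear admissible
subcategory of `D_perf (X)`, for any smooth proper morphism `X → S`. Let `perf (A) ⊠ C` be the
`S`-linear admissible subcategory of `D_perf (A ×_S X)` given by `C`.

Suppose that `A` moves relative to `C` (`MovesRelative`): through each point of `B` there is a
connected complex manifold along which the Hodge structure `K^top (C_b)` is constant and each `A i`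
is moving. This means that one of its members is simple and one of its ranks (of `γ - 1` for a
monodromy operator `γ` with `(γ - 1) ^ 2 = 0`, of a derivative of the period matrix, or of the
difference of two period matrices) is odd, or the centre of the endomorphism algebra is totally
real and one of the ranks is two or there are more than `(g - 1) ^ 2 / 8` moduli. For instance `C`
is one fixed category and all `A i` are moving over `B`; or `B = U × S`, the `A i` are moving over
`U` and `C` is linear over `S`.

Then (1) **every flat class of `perf (A) ⊠ C` which is a Hodge class for all `b` is a sum of
products `f ⊗ x`**, where `f` is flat and on each `A_b` a combination of products of divisor
classes, and `x` is a flat class of `C` which is a Hodge class for all `b`. (2) **The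
noncommutative variational Hodge conjecture for `perf (A) ⊠ C` is equivalent to the noncommutative
variational Hodge conjecture for `C`, and it then holds for all `S`-linear admissible subcategories
of `perf (A) ⊠ C`** (`NCVariationalReduces`, in `NCVariationalFor`). (3) If `C` is one fixed
admissible subcategory of `D_perf (Y)`, `Y` any smooth proper variety, so that the span of the
classes of its objects is constant, **the noncommutative variational Hodge conjecture is true for
`perf (A) ⊠ C` and for all its linear admissible subcategories**. In the last case nothing is
assumed on the Hodge classes of `Y` or of the members of `A`.

The Hodge structures of `K^top (C_b) ⊗ ℚ`, the sum of `K_0^top` (of weight zero) and `K_1^top` (of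
weight one), are given by `C b : Coh v`, a rational space (the local system, trivialized over `B`,
the base or a covering of the base) with a basis of homogeneous elements and the Hodge operators
`(C b).z`, which are the multiplication by `p - q`; by the Künneth formula those of
`perf (A_b) ⊠ C_b` are `HAZ W v`, the forms on the homology `W` of `A_b` with values in `ℚ ^ v`.
The spans of the classes of objects are given by `ObjectSystem`; the three properties used are that
the exterior product of a vector bundle on `A_b` and an object of `C_b` is an object of
`perf (A_b) ⊠ C_b`, that the direct image along `A_b` of the tensor product of an object with a
vector bundle on `A_b` is an object of `C_b` (by the theorem of Riemann and Roch its class is an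
integral over `A_b`), and that its objects can be restricted to the point zero of `A_b`. A class
which is algebraic for one `b` is a Hodge class for all `b` (known, see the problem file).

Relation to other results: the theorem on flat classes used in the proof (`TimesAnyVariety`,
MP_e9c0f3_ag, starting files) was stated there for families of varieties `Y`, with the implication
in one direction; here `Y` is replaced by any linear admissible subcategory `C`, the implication is
an equivalence, and the conjecture follows for all linear admissible subcategories of the product.
`AllCMTypesTimesCategory` (this folder) is about constant abelian varieties with complex
multiplication.

The proof. Let `F` be a flat class which is a Hodge class for all `b`. Along a leaf the Hodge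
operator of `C` is constant, so the differences of the Hodge operators of the `A_b` kill `F`. At a
very general point of the leaf the elements of the Hodge Lie algebra of `A_b` which kill `F` form
an ideal, which acts without invariants on the homology of each factor since this factor is simple
and moves; the complementary ideal has zero product with it, so it is zero. Hence `F` is killed by
the Hodge operators of the `A_b` and of the `C_b`, so that its components on `A` are Hodge classes
and, by the theorems on small and large families, combinations of products of divisor classes;
those in `K^top (C_b)` are found by direct images of products with such classes, since the pairing
of the invariant classes on `A` is perfect. Conversely the exterior product of an object of `C_b`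
with the structure sheaf of `A_b` restricts to this object at the point zero; and a flat class of
an admissible subcategory is its own image under the projection functor.
-/

set_option autoImplicit false

namespace Pool.Agent.Results.MP_298761_ag.MovingTimesCategory

open Pool.Agent.H204R3.CM Pool.Agent.H194R3.CM Pool.Agent.W437.HD Pool.Agent.W437.HP
  Pool.Agent.TH131.GHC Pool.Agent.TH504.VY Pool.Agent.Q64.HC

/-- **The noncommutative variational Hodge conjecture for `perf (A) ⊠ C`, where `A` is a fibre
product `A (c 0) × ... × A (c (n - 1))` of families of abelian varieties which move relative to the
linear admissible subcategory `C`, is equivalent to the one for `C`; it is true if `C` is constant;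
the same for the linear admissible subcategories of `perf (A) ⊠ C`.** -/
theorem result {ι B : Type} [Nonempty B] {g : ι → ℕ}
    (Z : ∀ i, B → Matrix (Fin (g i)) (Fin (g i)) ℂ) {n : ℕ} (c : Fin n → ι) {v : ℕ}
    (C : B → Coh v) (hmov : MovesRelative Z C) :
    NCVariationalFor (fibreProduct Z c) C := by
  obtain ⟨h1, h2⟩ := main Z c C hmov
  have h3 := ncVariationalReduces h2
  refine ⟨h1, h3, fun O hO => ?_⟩
  have h4 : NCVariational O C := fun x _ b₀ hb₀ b => by rw [hO b b₀]; exact hb₀
  exact ⟨(h3 O).1.2 h4, fun P => (h3 O).2 h4 P⟩

end Pool.Agent.Results.MP_298761_ag.MovingTimesCategory
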