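import Mathlib
import Pool.Agent.Q70.MM.VhcNC

/-!
# The noncommutative variational Hodge conjecture for `perf (A ^ n) ⊗ 𝒞`, with one Frobenius element on
`A` and an arbitrary `S`-linear category `𝒞`

Let `S` be a smooth connected complex variety, `A → S` an abelian scheme, `Y → S` a smooth proper
morphism and `𝒞 ⊂ D_perf (Y)` an `S`-linear admissible subcategory. The subcategory of
`D_perf (A ^ n ×_S Y)` generated by the exterior products of perfect complexes on `A ^ n` and of
objects of `𝒞` is admissible; we denote it by `perf (A ^ n) ⊗ 𝒞`. There is a finitely generated field
`k₀` over which everything is defined, including the point `0` of `S`. Let `Γ` be the Galois group of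
the function field of `S` over `k₀`. A global section `φ` of `K_0^top ⊗ ℚ` which is algebraic at `0` is
invariant under a subgroup of finite index of `Γ`, in the `ℓ`-adic realization. We suppose that
**one** Frobenius element `γ` of `Γ`, at one closed point of a model of `S` over the integers, has on
the Tate module `V` of `A` the characteristic polynomial described below, and that its eigenvalues on
`K_0^top (𝒞) ⊗ ℚ_ℓ` and `K_1^top (𝒞) ⊗ ℚ_ℓ` are of a certain general kind. The category `𝒞` is
arbitrary otherwise; the variational conjecture is not known for `𝒞`.

**Theorem.  The noncommutative variational Hodge conjecture for `𝒞` implies the one for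
`perf (A ^ n) ⊗ 𝒞`, for all `n`.**

What is proved in Lean (`NCVariationalHolds`).  `V` and `χ` are the Tate module of `A` (tensor `ℚ`)
and the cyclotomic character, with the theorems of Faltings (`FT.IsTateModule`). `M₀` and `M₁` are
representations `τ₀`, `τ₁` of `Γ`, the groups `K_0^top (𝒞) ⊗ ℚ_ℓ` and `K_1^top (𝒞) ⊗ ℚ_ℓ`. By the
Künneth formula

`K_0^top (perf (A ^ n) ⊗ 𝒞) ⊗ ℚ_ℓ = ⨁ m, H^(2m)(A ^ n)(m) ⊗ M₀ ⊕ ⨁ m, H^(2m+1)(A ^ n)(m) ⊗ M₁`

(with the appropriate normalization of the weight of `M₁`), so its elements are the families `G` of
alternating forms in `2 m` variables in `V ^ n` with values in `M₀`, and in `2 m + 1` variables with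
values in `M₁` (`KClass`), and the classes which are flat and algebraic at `0` have equivariant
components, with the twists by `χ ^ m` (`IsFlatClass`). **All degrees are treated at once; it is not
assumed that the components of an algebraic class are algebraic.** Let `Xη`, `X0` (for
`perf (A ^ n) ⊗ 𝒞`) and `Yη`, `Y0` (for `𝒞`) be the subspaces generated by the classes which are
algebraic on the generic fibre, and those which are algebraic on the fibre over `0`. Of algebraic
classes we use (`IsKCycleSystem`)

* `product`: exterior products of products of `m` classes of divisors on `A ^ n` (elements of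
  `K_0 (A ^ n) ⊗ ℚ` with pure Chern character) and of algebraic classes of `𝒞` are algebraic;
* `push`: if `G` is algebraic at `0` and `β` a product of classes of divisors on `A ^ n` of degree
  complementary to `2 m`, the push-forward of `G β` to `𝒞`, which is the value at the component of
  degree `2 m` of `G`, is algebraic at `0` (the theorem of Grothendieck, Riemann and Roch; the tangent
  bundle of an abelian scheme has Chern character of degree zero on the fibres); `Φ m` is the set of
  the functionals `f ↦ ∫ f β`;
* `pairing`: the products of divisor classes on `A ^ n` satisfy the theorem that homological and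
  numerical equivalence agree (Lieberman).

Conclusion: if all elements of `Y0` fixed by a subgroup of finite index are in `Yη` (this is the
variational conjecture for `𝒞`), then every flat class in `X0` is in `Xη`; in particular its
components in the odd cohomology of `A ^ n` are zero.

The conditions.  The characteristic polynomial of `γ` on the Tate module of `A` is the product of the
minimal polynomials of Weil numbers `π c l` for `q = p ^ a` which generate CM fields `K c`, `c` in a
finite set `C`, `l` in a finite set `J c`.  The functions `n` on the complex embeddings of `K c` with
`n (conj φ) = - n φ` are an absolutely irreducible representation of the automorphisms of `ℂ`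
(`OddAbsolutelyIrreducible`; this is the generic case).  The slopes are in general position in the
following sense.  Let the slope function of `π c l` be `τ ↦ log |τ (π c l)| + (log q) / 2` on the
embeddings `τ` of `K c` in the algebraic closure of `ℚ_p`, and `D c` the quadratic form `m ↦ ∑ τ, (∑
l, m l * slope (π c l) τ) ^ 2` in the rational variables `m l` (`slopeForm`);

* `IndependentSlopes`: for each `c` the slope functions of the `π c l` are linearly independent over
  `ℚ`;
* `SeparatedPairs`: the indices `c` form pairs `c`, `β c` such that `K c` and `K c'` are unrelated
  (there are no equivariant maps between the odd functions) if `c'` is different from `c` and `β c`,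
  and if `β c ≠ c` then `[K c : ℚ] ≠ [K (β c) : ℚ]`, or `[K c : ℚ] = 2 g` with odd `g` and `D c` and
  `D (β c)` have no common values at nonzero rational vectors, or `g` is twice an odd number and no
  value of `D c` is a value of `D (β c)` times a sum of two squares (at nonzero vectors).

The condition on `𝒞` (`HarmlessProducts`): `γ` is killed on `M₀` and `M₁` by a rational polynomial all
of whose complex roots are products of algebraic numbers each of which is, for each `c`, unrelated to
`K c` (an odd function on the embeddings of `K c` invariant under all automorphisms of `ℂ` that
fix a power of the number is zero) or of smaller degree than `K c`.  For example the Frobenius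
polynomial on the even and odd cohomology of `Y`, `𝒞 ⊂ D_perf (Y)`, has only irreducible factors of
smaller degree than all `K c`. The twists by `χ ^ m` do not matter, since the numbers `q ^ m` are
rational.

**First part**: the theorem in general.  **Second part**: the fields `K c` are pairwise unrelated,
all `π c l` are ordinary, there are at most three of them for each field, and their slopes are
neither equal nor opposite (`DifferentSlopes`).  **Third part**: three Weil numbers, `x`, `y` in `F
false` and `z` in `F true`, with only the slopes `0`, `1 / 2`, `1` and with `p`-ranks `f₁`, `f₂`, `f >
0`, nothing is assumed about the relation of the two fields, `[F false : ℚ] = 2 g` with odd `g`,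
`2 k` is the number of embeddings at which `x` and `y` have the same slope minus the number of
those at which they have opposite slopes, both different from `1 / 2`, and the equation `f₁ X ^ 2 +
2 k X Y + f₂ Y ^ 2 = f Z ^ 2` has no integral solution with `(X, Y) ≠ (0, 0)`.

What is known: for `𝒞 = D_perf (Y)` the question is equivalent to the variational Hodge conjecture for
`A ^ n ×_S Y`, see `OneFrobeniusTimesFamily` (MP_e9c0f3_ag, helper70) and the starting theorem
`TimesAnyVariety` there (conditions on the moduli). Here `𝒞` is any admissible subcategory (for
instance the Kuznetsov component of a family of cubic fourfolds or of Gushel-Mukai varieties), no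
direct factor of `D_perf (Y)` has to be controlled; the conjecture for `D_perf (Y)` is not
needed, only the one for `𝒞`. The engine is the one of `SumsWithMotives` (MP_de8692_ag); the starting
library Y137.MV and the results of helper306 on products of harmless numbers are used there.
-/

set_option autoImplicit false

namespace Pool.Agent.Results.MP_298761_ag.OneFrobeniusTimesCategory

open NumberField Module IntermediateField Pool.Agent.H204R3.GP Pool.Agent.TH170
  Pool.Agent.Y137.MV Pool.Agent.Y137.SL Pool.Agent.Y1.CT Pool.Agent.Q70.SQ Pool.Agent.Q70.MM

/-- **The noncommutative variational Hodge conjecture for the `S`-linear category `𝒞` implies the one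
for `perf (A ^ n) ⊗ 𝒞`, for the abelian schemes `A` with a Frobenius element at a closed point with
several Weil numbers in the same CM field or in related CM fields, with absolutely irreducible odd
functions and separated quadratic forms of slopes (first part), for instance at most three ordinary
ones for each field (second part), or three Weil numbers in two arbitrary such fields with a ternary
equation (third part), and for all `𝒞` on whose topological `K`-theory the eigenvalues of this
Frobenius element are products of numbers unrelated to these fields or of smaller degree.** -/
theorem result :
    (∀ (p : ℕ) [Fact p.Prime] (a : ℕ) (C : Type) [Fintype C] (K : C → Type)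
      [∀ c, Field (K c)] [∀ c, NumberField (K c)] [∀ c, IsCMField (K c)]
      (J : C → Type) [∀ c, Fintype (J c)] (π : ∀ c, J c → K c), 0 < a →
      IsSystem p a π → SeparatedPairs p a π →
      NCVariationalHolds p a K (fun i : Σ c, J c => K i.1) (fun i => π i.1 i.2)) ∧
    (∀ (p : ℕ) [Fact p.Prime] (a : ℕ) (C : Type) [Fintype C] (K : C → Type)
      [∀ c, Field (K c)] [∀ c, NumberField (K c)] [∀ c, IsCMField (K c)]
      (J : C → Type) [∀ c, Fintype (J c)] (π : ∀ c, J c → K c), 0 < a →
      (∀ c l, ℚ⟮π c l⟯ = ⊤) →
      (∀ c l, π c l * IsCMField.complexConj (K c) (π c l) = (p : K c) ^ a) →
      (∀ c, OddAbsolutelyIrreducible (K c)) →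
      (∀ c c', c ≠ c' → Pool.Agent.Y137.MV.Unrelated (K c) (K c')) →
      (∀ c, Fintype.card (J c) ≤ 3) → (∀ c l, IsOrdinary p a (π c l)) →
      (∀ c l l', l ≠ l' → DifferentSlopes p a (π c l) (π c l')) →
      NCVariationalHolds p a K (fun i : Σ c, J c => K i.1) (fun i => π i.1 i.2)) ∧
    (∀ (p : ℕ) [Fact p.Prime] (a : ℕ) (F : Bool → Type)
      [∀ b, Field (F b)] [∀ b, NumberField (F b)] [∀ b, IsCMField (F b)]
      (x y : F false) (z : F true) (f₁ f₂ f : ℕ) (k : ℤ), 0 < a →
      IsTriple p a x y z f₁ f₂ f k →
      NCVariationalHolds p a F (fun i : Σ b : Bool, Fin (cond b 1 2) => F i.1)
        (fun i => twoOne x y z i.1 i.2)) := by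
  refine ⟨?_, ?_, ?_⟩
  · intro p _ a C _ K _ _ _ J _ π ha hS hsep
    exact ncVariationalHolds (fun c => (hS.abs c).1) (fun i => hS.gen i.1 i.2)
      (fun i => hS.weil i.1 i.2) (angle_of_forms π ha hS.weil hS.abs hS.slopes hsep)
  · intro p _ a C _ K _ _ _ J _ π ha hg hw habs hun hcard hord hdiff
    exact ncVariationalHolds (fun c => (habs c).1) (fun i => hg i.1 i.2) (fun i => hw i.1 i.2)
      (angle_same π ha hw habs hun (independent_of_three π ha hcard hord hdiff))
  · intro p _ a F _ _ _ x y z f₁ f₂ f k ha hT
    exact ncVariationalHolds (J := fun b : Bool => Fin (cond b 1 2)) (π := twoOne x y z)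
      (fun b => by
        cases b
        · exact hT.abs.1.1
        · exact hT.abs.2.1) (triple_gen hT) (triple_weil hT) (angle_triple ha hT)

end Pool.Agent.Results.MP_298761_ag.OneFrobeniusTimesCategory
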